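import Pool.Agent.H38.PWS.Stmts

/-!
# Row HAL of board `pws`: halving
-/

set_option autoImplicit false

namespace Pool.PWS

open ArithmeticFunction Finset Pool.MKP

theorem HAL (h1 : FINStmt) : HALStmt := by
  classical
  intro m ε hm hε
  obtain ⟨C, hC, hF⟩ := h1 m ε hm hε
  refine ⟨8 * C, by positivity, ?_⟩
  intro N
  induction N using Nat.strong_induction_on with
  | _ N ih =>
    rcases Nat.eq_zero_or_pos N with rfl | hN
    · simp only [Nat.cast_zero]
      rw [show Icc 1 0 = (∅ : Finset ℕ) from by simp]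
      simp only [Finset.filter_empty, Finset.card_empty, Nat.cast_zero]
      positivity
    · have hNR : (0 : ℝ) < (N : ℝ) := by exact_mod_cast hN
      have hD1 : 1 ≤ (N + 1) / 2 := by omega
      have hhalf := ih (N / 2) (by omega)
      have hbig := hF N ((N + 1) / 2) hD1
      have hsub : (Icc 1 N).filter (fun n => n ∣ it m n) ⊆
          ((Icc 1 (N / 2)).filter fun n => n ∣ it m n) ∪
          ((Icc 1 N).filter fun n => (N + 1) / 2 ≤ Nat.gcd n (it m n)) := by
        intro n hn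
        rw [mem_filter, mem_Icc] at hn
        obtain ⟨⟨hn1, hn2⟩, hn3⟩ := hn
        rw [mem_union, mem_filter, mem_filter, mem_Icc, mem_Icc]
        by_cases hc : n ≤ N / 2
        · exact Or.inl ⟨⟨hn1, hc⟩, hn3⟩
        · refine Or.inr ⟨⟨hn1, hn2⟩, ?_⟩
          rw [Nat.gcd_eq_left hn3]
          omega
      have hcard : (((Icc 1 N).filter fun n => n ∣ it m n).card : ℝ) ≤
          (((Icc 1 (N / 2)).filter fun n => n ∣ it m n).card : ℝ) +
          (((Icc 1 N).filter fun n => (N + 1) / 2 ≤ Nat.gcd n (it m n)).card : ℝ) := by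
        have h2 := (card_le_card hsub).trans (card_union_le _ _)
        exact_mod_cast h2
      have hexp : (0 : ℝ) < 1 / 2 + ε := by positivity
      -- the large numbers
      have hb2 : C * (N : ℝ) ^ (1 + ε) / Real.sqrt (((N + 1) / 2 : ℕ) : ℝ) ≤
          2 * C * (N : ℝ) ^ ((1 : ℝ) / 2 + ε) := by
        have hD : (N : ℝ) / 4 ≤ (((N + 1) / 2 : ℕ) : ℝ) := by
          have h3 : N ≤ 2 * ((N + 1) / 2) := by omega
          have h4 : (N : ℝ) ≤ 2 * (((N + 1) / 2 : ℕ) : ℝ) := by exact_mod_cast h3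
          linarith
        have hsq : Real.sqrt (N : ℝ) / 2 ≤ Real.sqrt (((N + 1) / 2 : ℕ) : ℝ) := by
          have h5 : Real.sqrt ((N : ℝ) / 4) = Real.sqrt (N : ℝ) / 2 := by
            rw [Real.sqrt_div' _ (by norm_num), show (4 : ℝ) = 2 ^ 2 from by norm_num,
              Real.sqrt_sq (by norm_num)]
          rw [← h5]
          exact Real.sqrt_le_sqrt hD
        have hs0 : 0 < Real.sqrt (N : ℝ) := Real.sqrt_pos.mpr hNR
        have hpow : (N : ℝ) ^ (1 + ε) = (N : ℝ) ^ ((1 : ℝ) / 2 + ε) * Real.sqrt (N : ℝ) := by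
          rw [Real.sqrt_eq_rpow, ← Real.rpow_add hNR]
          congr 1
          ring
        calc C * (N : ℝ) ^ (1 + ε) / Real.sqrt (((N + 1) / 2 : ℕ) : ℝ)
            ≤ C * (N : ℝ) ^ (1 + ε) / (Real.sqrt (N : ℝ) / 2) :=
              div_le_div_of_nonneg_left (by positivity) (by positivity) hsq
          _ = 2 * C * (N : ℝ) ^ ((1 : ℝ) / 2 + ε) := by
              rw [hpow]
              field_simp
      -- the small numbers
      have hb1 : ((N / 2 : ℕ) : ℝ) ^ ((1 : ℝ) / 2 + ε) ≤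
          3 / 4 * (N : ℝ) ^ ((1 : ℝ) / 2 + ε) := by
        have h6 : ((N / 2 : ℕ) : ℝ) ≤ (1 / 2 : ℝ) * N := by
          have h7 : 2 * (N / 2) ≤ N := by omega
          have h8 : 2 * ((N / 2 : ℕ) : ℝ) ≤ (N : ℝ) := by exact_mod_cast h7
          linarith
        calc ((N / 2 : ℕ) : ℝ) ^ ((1 : ℝ) / 2 + ε)
            ≤ ((1 / 2 : ℝ) * N) ^ ((1 : ℝ) / 2 + ε) :=
              Real.rpow_le_rpow (Nat.cast_nonneg _) h6 hexp.le
          _ = (1 / 2 : ℝ) ^ ((1 : ℝ) / 2 + ε) * (N : ℝ) ^ ((1 : ℝ) / 2 + ε) :=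
              Real.mul_rpow (by norm_num) hNR.le
          _ ≤ 3 / 4 * (N : ℝ) ^ ((1 : ℝ) / 2 + ε) := by
              apply mul_le_mul_of_nonneg_right _ (by positivity)
              calc (1 / 2 : ℝ) ^ ((1 : ℝ) / 2 + ε) ≤ (1 / 2 : ℝ) ^ ((1 : ℝ) / 2) :=
                    Real.rpow_le_rpow_of_exponent_ge (by norm_num) (by norm_num) (by linarith)
                _ = Real.sqrt (1 / 2) := (Real.sqrt_eq_rpow _).symm
                _ ≤ 3 / 4 := by
                    rw [Real.sqrt_le_iff]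
                    norm_num
      calc (((Icc 1 N).filter fun n => n ∣ it m n).card : ℝ)
          ≤ (((Icc 1 (N / 2)).filter fun n => n ∣ it m n).card : ℝ) +
            (((Icc 1 N).filter fun n => (N + 1) / 2 ≤ Nat.gcd n (it m n)).card : ℝ) := hcard
        _ ≤ 8 * C * ((N / 2 : ℕ) : ℝ) ^ ((1 : ℝ) / 2 + ε) +
            C * (N : ℝ) ^ (1 + ε) / Real.sqrt (((N + 1) / 2 : ℕ) : ℝ) :=
            add_le_add hhalf hbig
        _ ≤ 8 * C * (3 / 4 * (N : ℝ) ^ ((1 : ℝ) / 2 + ε)) +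
            2 * C * (N : ℝ) ^ ((1 : ℝ) / 2 + ε) := by
            apply add_le_add _ hb2
            exact mul_le_mul_of_nonneg_left hb1 (by positivity)
        _ = 8 * C * (N : ℝ) ^ ((1 : ℝ) / 2 + ε) := by ring

end Pool.PWS
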